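import Mathlib
import Pool.Agent.Mg.Fcbe134ap.G9c255f

section

/- Meaning of the checker: evaluation of the lists, jets of order two modulo 27. -/

namespace Pool.Agent.MP_cbe134_nt.T3

variable {S : Type} [CommRing S]

def e1 (x : S) (r : List ℕ) : S := r.foldr (fun a acc => (a : S) + x * acc) 0

def e2 (x y : S) (p : Po) : S := p.foldr (fun r acc => e1 x r + y * acc) 0

theorem e1_cons (x : S) (a : ℕ) (r : List ℕ) : e1 x (a :: r) = a + x * e1 x r := rfl

theorem e2_cons (x y : S) (a : List ℕ) (r : Po) : e2 x y (a :: r) = e1 x a + y * e2 x y r := rfl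

theorem e1_nil (x : S) : e1 x [] = 0 := rfl

theorem e2_nil (x y : S) : e2 x y [] = 0 := rfl

theorem e1_a1 (x : S) : ∀ u v, e1 x (a1 u v) = e1 x u + e1 x v
  | [], v => by rw [e1_nil, zero_add]; rfl
  | a :: u, [] => by rw [e1_nil, add_zero]; rfl
  | a :: u, b :: v => by
    have h : a1 (a :: u) (b :: v) = (a + b) :: a1 u v := rfl
    rw [h, e1_cons, e1_cons, e1_cons, e1_a1 x u v]
    push_cast
    ring

theorem e2_ad (x y : S) : ∀ u v, e2 x y (ad u v) = e2 x y u + e2 x y v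
  | [], v => by rw [e2_nil, zero_add]; rfl
  | a :: u, [] => by rw [e2_nil, add_zero]; rfl
  | a :: u, b :: v => by
    have h : ad (a :: u) (b :: v) = a1 a b :: ad u v := rfl
    rw [h, e2_cons, e2_cons, e2_cons, e2_ad x y u v, e1_a1]
    ring

theorem e1_s1 (x : S) (c : ℕ) : ∀ u, e1 x (s1 c u) = c * e1 x u
  | [] => by rw [e1_nil, mul_zero]; rfl
  | a :: u => by
    have h : s1 c (a :: u) = (c * a) :: s1 c u := rfl
    rw [h, e1_cons, e1_cons, e1_s1 x c u]
    push_cast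
    ring

theorem e2_s2 (x y : S) (c : ℕ) : ∀ u, e2 x y (s2 c u) = c * e2 x y u
  | [] => by rw [e2_nil, mul_zero]; rfl
  | a :: u => by
    have h : s2 c (a :: u) = s1 c a :: s2 c u := rfl
    rw [h, e2_cons, e2_cons, e2_s2 x y c u, e1_s1]
    ring

theorem e2_sc (x y : S) (u : Po) : ∀ c : ℕ, e2 x y (sc c u) = c * e2 x y u
  | 0 => by rw [Nat.cast_zero, zero_mul]; rfl
  | 1 => by rw [Nat.cast_one, one_mul]; rfl
  | c + 2 => e2_s2 x y (c + 2) u

theorem e2_mx (x y : S) : ∀ u, e2 x y (mx u) = x * e2 x y u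
  | [] => by rw [e2_nil, mul_zero]; rfl
  | a :: u => by
    have h : mx (a :: u) = (0 :: a) :: mx u := rfl
    rw [h, e2_cons, e2_cons, e2_mx x y u, e1_cons]
    push_cast
    ring

theorem e2_lin (x y : S) (m1 m2 m3 : ℕ) (u : Po) :
    e2 x y (lin m1 m2 m3 u) = (m1 * x + m2 * y + m3) * e2 x y u := by
  rw [lin, e2_ad, e2_ad, e2_mx, e2_cons, e1_nil, e2_sc, e2_sc, e2_sc]
  ring

theorem e1_z1 (x : S) (n : ℕ) : ∀ u, z1 n u = true → ∃ w, e1 x u = n * w
  | [], _ => ⟨0, by rw [e1_nil, mul_zero]⟩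
  | a :: u, h => by
    have h0 : z1 n (a :: u) = Nat.rec (z1 n u) (fun _ _ => false) (a % n) := rfl
    rw [h0] at h
    rcases hm : a % n with _ | k
    · rw [hm] at h
      obtain ⟨w, hw⟩ := e1_z1 x n u h
      obtain ⟨b, rfl⟩ := Nat.dvd_of_mod_eq_zero hm
      exact ⟨b + x * w, by rw [e1_cons, hw]; push_cast; ring⟩
    · rw [hm] at h
      exact absurd h (by simp)

theorem e2_zm (x y : S) (n : ℕ) : ∀ u, zm n u = true → ∃ w, e2 x y u = n * w
  | [], _ => ⟨0, by rw [e2_nil, mul_zero]⟩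
  | a :: u, h => by
    have h0 : zm n (a :: u) = Bool.rec false (zm n u) (z1 n a) := rfl
    rw [h0] at h
    rcases hm : z1 n a with _ | _
    · rw [hm] at h
      exact absurd h (by simp)
    · rw [hm] at h
      obtain ⟨w, hw⟩ := e2_zm x y n u h
      obtain ⟨b, hb⟩ := e1_z1 x n a hm
      exact ⟨b + y * w, by rw [e2_cons, hw, hb]; ring⟩

def tay (j : V S) (t1 t2 t3 : S) : S :=
  j.a + 3 * (t1 * j.b1 + t2 * j.b2 + t3 * j.b3) + 9 * (t1 * t1 * j.c11 + t1 * t2 * j.c12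
    + t1 * t3 * j.c13 + t2 * t2 * j.c22 + t2 * t3 * j.c23 + t3 * t3 * j.c33)

def pr (q j : V S) : S :=
  q.a * j.a + 3 * (q.b1 * j.b1 + q.b2 * j.b2 + q.b3 * j.b3) + 9 * (q.c11 * j.c11 + q.c12 * j.c12
    + q.c13 * j.c13 + q.c22 * j.c22 + q.c23 * j.c23 + q.c33 * j.c33)

theorem pr_zero (h27 : (27 : S) = 0) (j : V S) (h : ∀ t1 t2 t3, tay j t1 t2 t3 = 0) (q : V S) :
    pr q j = 0 := by
  simp only [tay] at h
  have ha : j.a = 0 := by linear_combination h 0 0 0
  have hb1 : 3 * j.b1 = 0 := by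
    linear_combination 14 * h 1 0 0 - 14 * h (-1) 0 0 - 3 * j.b1 * h27
  have hb2 : 3 * j.b2 = 0 := by
    linear_combination 14 * h 0 1 0 - 14 * h 0 (-1) 0 - 3 * j.b2 * h27
  have hb3 : 3 * j.b3 = 0 := by
    linear_combination 14 * h 0 0 1 - 14 * h 0 0 (-1) - 3 * j.b3 * h27
  have h11 : 9 * j.c11 = 0 := by linear_combination h 1 0 0 - ha - hb1
  have h22 : 9 * j.c22 = 0 := by linear_combination h 0 1 0 - ha - hb2
  have h33 : 9 * j.c33 = 0 := by linear_combination h 0 0 1 - ha - hb3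
  have h12 : 9 * j.c12 = 0 := by linear_combination h 1 1 0 - ha - hb1 - hb2 - h11 - h22
  have h13 : 9 * j.c13 = 0 := by linear_combination h 1 0 1 - ha - hb1 - hb3 - h11 - h33
  have h23 : 9 * j.c23 = 0 := by linear_combination h 0 1 1 - ha - hb2 - hb3 - h22 - h33
  rw [pr]
  linear_combination q.a * ha + q.b1 * hb1 + q.b2 * hb2 + q.b3 * hb3 + q.c11 * h11
    + q.c12 * h12 + q.c13 * h13 + q.c22 * h22 + q.c23 * h23 + q.c33 * h33

theorem rel_g (h27 : (27 : S) = 0) (j1 j2 j3 j4 : V S)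
    (h : ∀ t1 t2 t3, tay j1 t1 t2 t3 + tay j2 t1 t2 t3 + tay j3 t2 t1 t3 + tay j4 t2 t1 t3 = 0)
    (q : V S) : pr q j1 + pr q j2 + (pr q.s12 j3 + pr q.s12 j4) = 0 := by
  have := pr_zero h27 (V.zip (· + ·) (V.zip (· + ·) j1 j2) (V.zip (· + ·) j3.s12 j4.s12))
    (fun t1 t2 t3 => by
      have := h t1 t2 t3
      simp only [tay, V.zip, V.s12] at this ⊢
      linear_combination this) q
  simp only [pr, V.zip, V.s12] at this ⊢
  linear_combination this

theorem rel_s (h27 : (27 : S) = 0) (j1 j2 : V S)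
    (h : ∀ t1 t2 t3, tay j2 t1 t3 t2 = tay j1 t1 t2 t3) (q : V S) : pr q.s23 j1 = pr q j2 := by
  have := pr_zero h27 (V.zip (· - ·) j1.s23 j2)
    (fun t1 t2 t3 => by
      have := h t1 t3 t2
      simp only [tay, V.zip, V.s23] at this ⊢
      linear_combination -this) q
  simp only [pr, V.zip, V.s23] at this ⊢
  linear_combination this

theorem rel_j (h27 : (27 : S) = 0) (j1 j2 j3 : V S)
    (h : ∀ t1 t2 t3, tay j1 t1 t2 t3 + tay j2 t2 t1 t3 + tay j3 t3 t2 t1 = 0) (q : V S) :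
    pr q j1 + pr q.s12 j2 + pr q.s13 j3 = 0 := by
  have := pr_zero h27 (V.zip (· + ·) (V.zip (· + ·) j1 j2.s12) j3.s13)
    (fun t1 t2 t3 => by
      have := h t1 t2 t3
      simp only [tay, V.zip, V.s12, V.s13] at this ⊢
      linear_combination this) q
  simp only [pr, V.zip, V.s12, V.s13] at this ⊢
  linear_combination this

def sh (μ e g : S) (j : V S) : V S :=
  ⟨j.a + 3 * μ * j.b1 + 9 * μ * μ * j.c11, e * j.b1 + 6 * μ * e * j.c11, j.b2 + 3 * μ * j.c12,
    j.b3 + g * j.b1 + 6 * μ * g * j.c11 + 3 * μ * j.c13, e * e * j.c11, e * j.c12,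
    e * j.c13 + 2 * e * g * j.c11, j.c22, j.c23 + g * j.c12, j.c33 + g * j.c13 + g * g * j.c11⟩

theorem tay_sh (μ e g : S) (j : V S) (t1 t2 t3 : S) :
    tay (sh μ e g j) t1 t2 t3 = tay j (μ + e * t1 + g * t3) t2 t3 := by
  simp only [tay, sh]
  ring

/-- evaluation of ten polynomials -/
def ev (x y : S) (q : V Po) : V S := V.map (e2 x y) q

theorem pr_co (x y : S) (s e m1 m2 m3 : ℕ) (he : (e : S) * e = 1) (hs : (s : S) * s = 1)
    (q : V Po) (j : V S) : pr (ev x y (co s e m1 m2 m3 q)) j =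
      pr (ev x y q) (sh (m1 * x + m2 * y + m3) e (e * s) j) := by
  simp only [pr, ev, co, sh, V.map, e2_ad, e2_lin, e2_sc, Nat.mul_eq, Nat.cast_mul, Nat.cast_ofNat]
  linear_combination (-9 * j.c11 * (e2 x y q.c11 + 2 * s * e2 x y q.c13 + e2 x y q.c33)) * he
    - 9 * j.c11 * e * e * e2 x y q.c33 * hs

theorem pr_zip (x y : S) (p q : V Po) (j : V S) :
    pr (ev x y (V.zip ad p q)) j = pr (ev x y p) j + pr (ev x y q) j := by
  simp only [pr, ev, V.map, V.zip, e2_ad]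
  ring

theorem pr_sc (x y : S) (c : ℕ) (q : V Po) (j : V S) :
    pr (ev x y (V.map (sc c) q)) j = c * pr (ev x y q) j := by
  simp only [pr, ev, V.map, e2_sc]
  ring

theorem pr_zv (h27 : (27 : S) = 0) (x y : S) (q : V Po) (h : zv q = true) (j : V S) :
    pr (ev x y q) j = 0 := by
  simp only [zv, Bool.and_eq_true] at h
  obtain ⟨⟨⟨⟨⟨⟨⟨⟨⟨h0, h1⟩, h2⟩, h3⟩, h4⟩, h5⟩, h6⟩, h7⟩, h8⟩, h9⟩ := h
  obtain ⟨w0, g0⟩ := e2_zm x y _ _ h0
  obtain ⟨w1, g1⟩ := e2_zm x y _ _ h1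
  obtain ⟨w2, g2⟩ := e2_zm x y _ _ h2
  obtain ⟨w3, g3⟩ := e2_zm x y _ _ h3
  obtain ⟨w4, g4⟩ := e2_zm x y _ _ h4
  obtain ⟨w5, g5⟩ := e2_zm x y _ _ h5
  obtain ⟨w6, g6⟩ := e2_zm x y _ _ h6
  obtain ⟨w7, g7⟩ := e2_zm x y _ _ h7
  obtain ⟨w8, g8⟩ := e2_zm x y _ _ h8
  obtain ⟨w9, g9⟩ := e2_zm x y _ _ h9
  simp only [pr, ev, V.map, g0, g1, g2, g3, g4, g5, g6, g7, g8, g9, Nat.cast_ofNat]
  linear_combination (w0 * j.a + w1 * j.b1 + w2 * j.b2 + w3 * j.b3 + w4 * j.c11 + w5 * j.c12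
    + w6 * j.c13 + w7 * j.c22 + w8 * j.c23 + w9 * j.c33) * h27

theorem cast_mod (h27 : (27 : S) = 0) {a b : ℕ} (h : a % 27 = b % 27) : (a : S) = b := by
  rw [← Nat.div_add_mod a 27, ← Nat.div_add_mod b 27, h]
  push_cast
  rw [h27]
  ring

/-- triple sums over the thirteen points -/
def S3 (f : ℕ → ℕ → ℕ → S) : S :=
  ∑ a ∈ Finset.range 13, ∑ b ∈ Finset.range 13, ∑ c ∈ Finset.range 13, f a b c

theorem S3_12 (f : ℕ → ℕ → ℕ → S) : S3 f = S3 fun a b c => f b a c := Finset.sum_comm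

theorem S3_23 (f : ℕ → ℕ → ℕ → S) : S3 f = S3 fun a b c => f a c b :=
  Finset.sum_congr rfl fun _ _ => Finset.sum_comm

theorem S3_congr {f g : ℕ → ℕ → ℕ → S}
    (h : ∀ a < 13, ∀ b < 13, ∀ c < 13, f a b c = g a b c) : S3 f = S3 g :=
  Finset.sum_congr rfl fun a ha => Finset.sum_congr rfl fun b hb => Finset.sum_congr rfl
    fun c hc => h a (Finset.mem_range.1 ha) b (Finset.mem_range.1 hb) c (Finset.mem_range.1 hc)

theorem S3_add (f g : ℕ → ℕ → ℕ → S) :
    S3 f + S3 g = S3 fun a b c => f a b c + g a b c := by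
  simp only [S3, Finset.sum_add_distrib]

theorem S3_six (f : ℕ → ℕ → ℕ → S)
    (h : ∀ a < 13, ∀ b < 13, ∀ c < 13, a = b ∨ b = c ∨ a = c → f a b c = 0) :
    S3 f = S3 fun a b c => if a < b ∧ b < c then
      f a b c + f a c b + (f b a c + f b c a) + (f c b a + f c a b) else 0 := by
  have p1 : (S3 fun a b c => if a < c ∧ c < b then f a b c else 0) =
      S3 fun a b c => if a < b ∧ b < c then f a c b else 0 := S3_23 _
  have p2 : (S3 fun a b c => if b < a ∧ a < c then f a b c else 0) =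
      S3 fun a b c => if a < b ∧ b < c then f b a c else 0 := S3_12 _
  have p3 : (S3 fun a b c => if c < a ∧ a < b then f a b c else 0) =
      S3 fun a b c => if a < b ∧ b < c then f b c a else 0 := (S3_23 _).trans (S3_12 _)
  have p4 : (S3 fun a b c => if c < b ∧ b < a then f a b c else 0) =
      S3 fun a b c => if a < b ∧ b < c then f c b a else 0 :=
    ((S3_12 _).trans (S3_23 _)).trans (S3_12 _)
  have p5 : (S3 fun a b c => if b < c ∧ c < a then f a b c else 0) =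
      S3 fun a b c => if a < b ∧ b < c then f c a b else 0 := (S3_12 _).trans (S3_23 _)
  have p0 : S3 f = S3 fun a b c => (if a < b ∧ b < c then f a b c else 0)
      + (if a < c ∧ c < b then f a b c else 0) + ((if b < a ∧ a < c then f a b c else 0)
      + (if c < a ∧ a < b then f a b c else 0)) + ((if c < b ∧ b < a then f a b c else 0)
      + (if b < c ∧ c < a then f a b c else 0)) := by
    refine S3_congr fun a ha b hb c hc => ?_
    by_cases hd : a = b ∨ b = c ∨ a = c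
    · simp [h a ha b hb c hc hd]
    · split_ifs <;> first | omega | ring1
  rw [p0, ← S3_add, ← S3_add, ← S3_add, ← S3_add, ← S3_add, p1, p2, p3, p4, p5, S3_add, S3_add,
    S3_add, S3_add, S3_add]
  refine S3_congr fun a _ b _ c _ => ?_
  split_ifs <;> ring1

end Pool.Agent.MP_cbe134_nt.T3

end

section

/- The certificate: the relations force nine times a unit times the function to vanish. -/

namespace Pool.Agent.MP_cbe134_nt.T3

theorem kall : ∀ a < 13, ∀ b < 13, ∀ c < 13, chk dat a b c = true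
  | 0, _ => k0
  | 1, _ => k1
  | 2, _ => k2
  | 3, _ => k3
  | 4, _ => k4
  | 5, _ => k5
  | 6, _ => k6
  | 7, _ => k7
  | 8, _ => k8
  | 9, _ => k9
  | 10, _ => k10
  | 11, _ => k11
  | 12, _ => k12
  | _ + 13, h => absurd h (by omega)

theorem tA : ∀ d < 2, ∀ z < 13, ∀ x < 13,
    tt d z x 0 < 13 ∧ tt (1 - d) z (tt d z x 0) 0 = x := by decide +kernel

theorem tB : ∀ d < 2, ∀ z < 13, ∀ x < 13, ∀ y < 13, nc (tt d z x 0) y z = nc x y z := by
  decide +kernel

theorem tC : ∀ z < 13, ∀ x < 13, x ≠ z →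
    (tt 0 z x 1 = 1 ∧ tt 1 z x 1 = 26) ∨ (tt 0 z x 1 = 26 ∧ tt 1 z x 1 = 1) := by decide +kernel

theorem tD1 : ∀ d < 2, ∀ z < 13, ∀ x < 13, (tt d z x 1 = 1 ∨ tt d z x 1 = 26) ∧
    (tt d z x 2 = 1 ∨ tt d z x 2 = 26) := by decide +kernel

theorem tD2 : ∀ d < 2, ∀ z < 13, ∀ x < 13, ∀ k < 3, x = z ∨ (pt x k + tt d z x 1 * pt z k) % 27 =
      (tt d z x 2 * (pt (tt d z x 0) k + 3 * tt d z x (3 + k))) % 27 := by decide +kernel

theorem tD : ∀ d < 2, ∀ z < 13, ∀ x < 13, x ≠ z → (tt d z x 1 = 1 ∨ tt d z x 1 = 26) ∧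
    (tt d z x 2 = 1 ∨ tt d z x 2 = 26) ∧ ∀ k < 3, (pt x k + tt d z x 1 * pt z k) % 27 =
      (tt d z x 2 * (pt (tt d z x 0) k + 3 * tt d z x (3 + k))) % 27 :=
  fun d hd z hz x hx h => ⟨(tD1 d hd z hz x hx).1, (tD1 d hd z hz x hx).2,
    fun k hk => (tD2 d hd z hz x hx k hk).resolve_left h⟩

theorem tE : ∀ a < 13, ∀ b < 13, ∀ c < 13, nc b a c = nc a b c ∧ nc a c b = nc a b c ∧
    (a = b ∨ b = c ∨ a = c → nc a b c = false) := by decide +kernel

variable {S : Type} [CommRing S]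

theorem S3_move (d : ℕ) (hd : d < 2) (g : ℕ → ℕ → ℕ → ℕ → S) :
    (S3 fun x y z => if nc x y z = true then g x (tt d z x 0) y z else 0) =
      S3 fun u y z => if nc u y z = true then g (tt (1 - d) z u 0) u y z else 0 := by
  rw [S3_12, S3_23, S3_12 fun u y z => if nc u y z = true then g (tt (1 - d) z u 0) u y z else 0,
    S3_23 fun y u z => if nc u y z = true then g (tt (1 - d) z u 0) u y z else 0]
  refine Finset.sum_congr rfl fun y hy => Finset.sum_congr rfl fun z hz => ?_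
  rw [Finset.mem_range] at hy hz
  have e : 1 - (1 - d) = d := by omega
  refine Finset.sum_nbij' (fun x => tt d z x 0) (fun u => tt (1 - d) z u 0) ?_ ?_ ?_ ?_ ?_
  · exact fun x hx => Finset.mem_range.2 (tA d hd z hz x (Finset.mem_range.1 hx)).1
  · exact fun x hx => Finset.mem_range.2 (tA (1 - d) (by omega) z hz x (Finset.mem_range.1 hx)).1
  · exact fun x hx => (tA d hd z hz x (Finset.mem_range.1 hx)).2
  · intro x hx
    have := (tA (1 - d) (by omega) z hz x (Finset.mem_range.1 hx)).2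
    rwa [e] at this
  · intro x hx
    rw [Finset.mem_range] at hx
    simp only [tB d hd z hz x hx y hy, (tA d hd z hz x hx).2]

/-- the linear form of a point -/
def L (x y : S) (i : ℕ) : S := pt i 0 * x + pt i 1 * y + pt i 2

theorem sq_one (h27 : (27 : S) = 0) {e : ℕ} (h : e = 1 ∨ e = 26) : (e : S) * e = 1 := by
  rcases h with rfl | rfl
  · simp
  · push_cast
    linear_combination 25 * h27

theorem qq_swap (D : List (List ℕ)) {x y : ℕ} (h : x ≠ y) (z : ℕ) :
    qq D y x z = (qq D x y z).s12 := by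
  rcases lt_or_gt_of_ne h with h | h
  · have h1 : Nat.blt x y = true := Nat.blt_eq ▸ h
    have h2 : Nat.blt y x = false := by
      rw [← Bool.not_eq_true, Nat.blt_eq]
      omega
    rw [qq, qq, h1, h2]
  · have h1 : Nat.blt y x = true := Nat.blt_eq ▸ h
    have h2 : Nat.blt x y = false := by
      rw [← Bool.not_eq_true, Nat.blt_eq]
      omega
    rw [qq, qq, h1, h2]
    rfl

theorem cert (h27 : (27 : S) = 0) (φ : S → S → S → S)
    (hT : ∀ p q r, ∃ j : V S, ∀ t1 t2 t3, φ (p + 3 * t1) (q + 3 * t2) (r + 3 * t3) = tay j t1 t2 t3)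
    (h1 : ∀ a b c, φ (-a) b c = φ a b c) (h2 : ∀ a b c, φ a c b = φ a b c)
    (hJ : ∀ a b c, φ a b c + φ b c a + φ c a b = 0)
    (hG : ∀ x y z, φ (x + z) y z + φ (x - z) y z + φ (y + z) x z + φ (y - z) x z = 0)
    (X Y : S) : 9 * (1 + X ^ 2 + X ^ 4 + Y ^ 2 + X ^ 2 * Y ^ 2 + Y ^ 4) * φ Y X 1 = 0 := by
  choose J hj using fun a b c : ℕ => hT (L X Y a) (L X Y b) (L X Y c)
  have h26 : ((26 : ℕ) : S) = -1 := by
    push_cast
    linear_combination h27
  have hev : ∀ e : ℕ, e = 1 ∨ e = 26 → ∀ a b c, φ (e * a) b c = φ a b c := by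
    rintro e (rfl | rfl) a b c
    · rw [Nat.cast_one, one_mul]
    · rw [h26, neg_one_mul, h1]
  -- one term of a relation
  have term : ∀ d < 2, ∀ z < 13, ∀ x < 13, x ≠ z → ∀ y t1 t2 t3,
      φ (L X Y x + 3 * t1 + tt d z x 1 * (L X Y z + 3 * t3)) (L X Y y + 3 * t2)
        (L X Y z + 3 * t3) = tay (sh (tt d z x 3 * X + tt d z x 4 * Y + tt d z x 5) (tt d z x 2)
          (tt d z x 2 * tt d z x 1) (J (tt d z x 0) y z)) t1 t2 t3 := by
    intro d hd z hz x hx hxz y t1 t2 t3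
    obtain ⟨-, he, hk⟩ := tD d hd z hz x hx hxz
    have c0 := cast_mod h27 (hk 0 (by omega))
    have c1 := cast_mod h27 (hk 1 (by omega))
    have c2 := cast_mod h27 (hk 2 (by omega))
    have hee := sq_one h27 he
    simp only [Nat.cast_add, Nat.cast_mul, Nat.cast_ofNat, Nat.reduceAdd] at c0 c1 c2
    rw [tay_sh, ← hj, ← hev _ he (L X Y (tt d z x 0) + _)]
    congr 1
    simp only [L]
    linear_combination X * c0 + Y * c1 + c2 - (3 * t1 + 3 * tt d z x 1 * t3) * hee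
  have half : ∀ z < 13, ∀ x < 13, x ≠ z → ∀ A B C Z : S,
      φ (A + tt 0 z x 1 * Z) B C + φ (A + tt 1 z x 1 * Z) B C = φ (A + Z) B C + φ (A - Z) B C := by
    intro z hz x hx hxz A B C Z
    rcases tC z hz x hx hxz with ⟨e0, e1⟩ | ⟨e0, e1⟩
    · rw [e0, e1, h26, Nat.cast_one, one_mul, neg_one_mul, sub_eq_add_neg]
    · rw [e0, e1, h26, Nat.cast_one, one_mul, neg_one_mul, sub_eq_add_neg, add_comm]
  let g : ℕ → ℕ → ℕ → ℕ → ℕ → S := fun d x u y z => pr (ev X Y (tm dat d x y z)) (J u y z)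
  have gsh : ∀ d < 2, ∀ z < 13, ∀ x < 13, x ≠ z → ∀ u y, g d x u y z = pr (ev X Y (qq dat x y z))
      (sh (tt d z x 3 * X + tt d z x 4 * Y + tt d z x 5) (tt d z x 2)
        (tt d z x 2 * tt d z x 1) (J u y z)) := by
    intro d hd z hz x hx hxz u y
    obtain ⟨hs, he, -⟩ := tD d hd z hz x hx hxz
    exact pr_co X Y _ _ _ _ _ (sq_one h27 he) (sq_one h27 hs) _ _
  let f : ℕ → ℕ → ℕ → S := fun x y z => (if nc x y z = true then g 0 x (tt 0 z x 0) y z else 0)
    + (if nc x y z = true then g 1 x (tt 1 z x 0) y z else 0)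
  have f0 : S3 f = 0 := by
    have h : S3 f + S3 f = 0 := by
      conv_lhs => rw [S3_12 f]; arg 1; rw [S3_12]
      rw [S3_add]
      refine (S3_congr (g := fun _ _ _ => 0) fun x hx y hy z hz => ?_).trans (by simp [S3])
      obtain ⟨n1, -, n3⟩ := tE x hx y hy z hz
      simp only [f, n1]
      split_ifs with hn
      · have hne : ¬(x = y ∨ y = z ∨ x = z) := fun hh => by simp [n3 hh] at hn
        have hxz : x ≠ z := fun hh => hne (Or.inr (Or.inr hh))
        have hyz : y ≠ z := fun hh => hne (Or.inr (Or.inl hh))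
        have hxy : x ≠ y := fun hh => hne (Or.inl hh)
        rw [gsh 0 (by omega) z hz x hx hxz, gsh 1 (by omega) z hz x hx hxz,
          gsh 0 (by omega) z hz y hy hyz, gsh 1 (by omega) z hz y hy hyz, qq_swap dat hxy]
        refine rel_g h27 _ _ _ _ (fun t1 t2 t3 => ?_) _
        rw [← term 0 (by omega) z hz x hx hxz, ← term 1 (by omega) z hz x hx hxz,
          ← term 0 (by omega) z hz y hy hyz, ← term 1 (by omega) z hz y hy hyz, add_assoc,
          half z hz x hx hxz, half z hz y hy hyz, ← add_assoc]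
        exact hG _ _ _
      · simp
    linear_combination 14 * h - S3 f * h27
  let F : ℕ → ℕ → ℕ → S := fun u y z =>
    if nc u y z = true then pr (ev X Y (slot dat u y z)) (J u y z) else 0
  have fF : S3 f = S3 F := by
    rw [← S3_add, S3_move 0 (by omega) (g 0), S3_move 1 (by omega) (g 1), S3_add]
    refine S3_congr fun u _ y _ z _ => ?_
    simp only [F, g, slot, pr_zip]
    split_ifs <;> simp
  have hsw : ∀ a b c, pr (ev X Y (kk dat a b c)) (J a b c) =
      pr (ev X Y (slot dat a b c)) (J a b c) + pr (ev X Y (slot dat a c b)) (J a c b) := by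
    intro a b c
    rw [kk, pr_zip]
    congr 1
    refine rel_s h27 _ _ (fun t1 t2 t3 => ?_) (ev X Y (slot dat a c b))
    rw [← hj, ← hj, h2]
  have fin : S3 F = S3 fun a b c => if a = 0 ∧ b = 1 ∧ c = 2 then
      -pr (ev X Y (ww 0 1 2)) (J 1 0 2) else 0 := by
    rw [S3_six F fun a ha b hb c hc hh => by simp [F, (tE a ha b hb c hc).2.2 hh]]
    refine S3_congr fun a ha b hb c hc => ?_
    by_cases hlt : a < b ∧ b < c
    · rw [if_pos hlt]
      obtain ⟨n1, n2, -⟩ := tE a ha b hb c hc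
      have n3 := (tE b hb a ha c hc).2.1
      have n4 := (tE a ha c hc b hb).1
      have n5 := (tE c hc a ha b hb).2.1
      simp only [F, n1, n2, n3, n4, n5]
      by_cases hn : nc a b c = true
      · simp only [if_pos hn]
        have hk := kall a ha b hb c hc
        have l1 : Nat.blt a b = true := Nat.blt_eq ▸ hlt.1
        have l2 : Nat.blt b c = true := Nat.blt_eq ▸ hlt.2
        simp only [chk, l1, l2, hn, Bool.and_self, Bool.not_true, Bool.false_or, ok,
          Bool.and_eq_true] at hk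
        have z1 := pr_zv h27 X Y _ hk.1 (J b a c)
        have z2 := pr_zv h27 X Y _ hk.2 (J c b a)
        rw [pr_zip, pr_zip, pr_sc, h26] at z1
        rw [pr_zip, pr_sc, h26] at z2
        have z3 := rel_j h27 (J a b c) (J b a c) (J c b a) (fun t1 t2 t3 => by
          rw [← hj, ← hj, ← hj, h2 (L X Y b + _), h2 (L X Y c + _)]
          exact hJ _ _ _) (ev X Y (kk dat a b c))
        have z4 : pr (ev X Y (ww a b c)) (J b a c) = -if a = 0 ∧ b = 1 ∧ c = 2 then
            -pr (ev X Y (ww 0 1 2)) (J 1 0 2) else 0 := by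
          split_ifs with ht
          · obtain ⟨rfl, rfl, rfl⟩ := ht
            rw [neg_neg]
          · simp [pr, ev, ww, V.map, ht, e2_nil]
        rw [← hsw, ← hsw, ← hsw]
        change _ + -1 * pr (ev X Y (kk dat a b c)).s12 _ + _ = 0 at z1
        change _ + -1 * pr (ev X Y (kk dat a b c)).s13 _ = 0 at z2
        linear_combination z1 + z2 + z3 - z4
      · simp only [if_neg hn]
        rw [if_neg]
        · simp
        · rintro ⟨rfl, rfl, rfl⟩
          exact hn (by decide +kernel)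
    · rw [if_neg hlt, if_neg]
      rintro ⟨rfl, rfl, rfl⟩
      exact hlt (by omega)
  rw [fF, fin] at f0
  simp only [S3, ite_and, Finset.sum_ite_irrel, Finset.sum_ite_eq', Finset.mem_range,
    Finset.sum_const_zero, Nat.reduceLT, if_true] at f0
  have ha := hj 1 0 2 0 0 0
  have p0 : L X Y 0 = X := by
    rw [L, show pt 0 0 = 1 by decide +kernel, show pt 0 1 = 0 by decide +kernel,
      show pt 0 2 = 0 by decide +kernel]
    simp
  have p1 : L X Y 1 = Y := by
    rw [L, show pt 1 0 = 0 by decide +kernel, show pt 1 1 = 1 by decide +kernel,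
      show pt 1 2 = 0 by decide +kernel]
    simp
  have p2 : L X Y 2 = 1 := by
    rw [L, show pt 2 0 = 0 by decide +kernel, show pt 2 1 = 0 by decide +kernel,
      show pt 2 2 = 1 by decide +kernel]
    simp
  simp only [p0, p1, p2, mul_zero, add_zero, tay, zero_mul] at ha
  simp only [pr, ev, ww, V.map, and_self, if_true, e2_cons, e2_nil, e1_cons, e1_nil,
    Nat.cast_ofNat, Nat.cast_zero] at f0
  rw [ha]
  linear_combination -f0

end Pool.Agent.MP_cbe134_nt.T3

end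

section

/- The core lemma: a polynomial with the four relations vanishes, by three-adic descent. -/

namespace Pool.Agent.MP_cbe134_nt.T3

open MvPolynomial

/-- an integral polynomial as a function on a ring -/
noncomputable def fn {S : Type} [CommRing S] (Φ : MvPolynomial (Fin 3) ℤ) (a b c : S) : S :=
  eval₂Hom (Int.castRingHom S) ![a, b, c] Φ

theorem fn_nat {A B : Type} [CommRing A] [CommRing B] (g : A →+* B) (Φ : MvPolynomial (Fin 3) ℤ)
    (a b c : A) : g (fn Φ a b c) = fn Φ (g a) (g b) (g c) := by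
  rw [fn, fn, map_eval₂Hom, RingHom.ext_int (g.comp _) (Int.castRingHom B)]
  congr 2
  ext i
  fin_cases i <;> rfl

/-- the four relations -/
def Rel {S : Type} [CommRing S] (φ : S → S → S → S) : Prop :=
  (∀ a b c, φ (-a) b c = φ a b c) ∧ (∀ a b c, φ a c b = φ a b c) ∧
    (∀ a b c, φ a b c + φ b c a + φ c a b = 0) ∧
    ∀ x y z, φ (x + z) y z + φ (x - z) y z + φ (y + z) x z + φ (y - z) x z = 0

theorem lift_zero {S : Type} [CommRing S] (R : MvPolynomial (Fin 3) ℤ)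
    (h : ∀ v : Fin 3 → ℤ, eval v R = 0) (a b c : S) :
    eval₂Hom (Int.castRingHom S) ![a, b, c] R = 0 := by
  rw [MvPolynomial.funext (p := R) (q := 0) fun v => by rw [h v, map_zero], map_zero]

theorem rel_lift {S : Type} [CommRing S] (Φ : MvPolynomial (Fin 3) ℤ) (h : Rel (S := ℤ) (fn Φ)) :
    Rel (S := S) (fn Φ) := by
  obtain ⟨h1, h2, h3, h4⟩ := h
  refine ⟨fun a b c => ?_, fun a b c => ?_, fun a b c => ?_, fun a b c => ?_⟩
  · have := lift_zero (fn Φ (-X 0) (X 1) (X 2) - fn Φ (X 0) (X 1) (X 2))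
      (fun v => by simp only [map_sub, fn_nat, map_neg, h1, sub_self]) a b c
    simp only [map_sub, fn_nat, map_neg] at this
    simpa [sub_eq_zero] using this
  · have := lift_zero (fn Φ (X 0) (X 2) (X 1) - fn Φ (X 0) (X 1) (X 2))
      (fun v => by rw [map_sub, fn_nat, fn_nat, h2, sub_self]) a b c
    simp only [map_sub, fn_nat] at this
    simpa [sub_eq_zero] using this
  · have := lift_zero (fn Φ (X 0) (X 1) (X 2) + fn Φ (X 1) (X 2) (X 0) + fn Φ (X 2) (X 0) (X 1))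
      (fun v => by simp only [map_add, fn_nat, h3]) a b c
    simp only [map_add, fn_nat] at this
    simpa using this
  · have := lift_zero (fn Φ (X 0 + X 2) (X 1) (X 2) + fn Φ (X 0 - X 2) (X 1) (X 2)
      + fn Φ (X 1 + X 2) (X 0) (X 2) + fn Φ (X 1 - X 2) (X 0) (X 2))
      (fun v => by simp only [map_add, fn_nat, map_sub, h4]) a b c
    simp only [map_add, fn_nat, map_sub] at this
    simpa using this

theorem taylor {S : Type} [CommRing S] (h27 : (27 : S) = 0) (l p q r : S)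
    (Φ : MvPolynomial (Fin 3) ℤ) : ∃ j : V S, ∀ t1 t2 t3,
      fn Φ (l * (p + 3 * t1)) (l * (q + 3 * t2)) (l * (r + 3 * t3)) = tay j t1 t2 t3 := by
  induction Φ using MvPolynomial.induction_on with
  | C a => exact ⟨⟨a, 0, 0, 0, 0, 0, 0, 0, 0, 0⟩, fun t1 t2 t3 => by simp [fn, tay]⟩
  | add f g hf hg =>
    obtain ⟨j, hj⟩ := hf
    obtain ⟨k, hk⟩ := hg
    refine ⟨V.zip (· + ·) j k, fun t1 t2 t3 => ?_⟩
    have a1 := hj t1 t2 t3
    have a2 := hk t1 t2 t3
    simp only [fn, map_add, tay, V.zip] at a1 a2 ⊢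
    linear_combination a1 + a2
  | mul_X f i hf =>
    obtain ⟨j, hj⟩ := hf
    fin_cases i
    · refine ⟨⟨l * p * j.a, l * p * j.b1 + l * j.a, l * p * j.b2, l * p * j.b3,
        l * p * j.c11 + l * j.b1, l * p * j.c12 + l * j.b2, l * p * j.c13 + l * j.b3,
        l * p * j.c22, l * p * j.c23, l * p * j.c33⟩, fun t1 t2 t3 => ?_⟩
      have a1 := hj t1 t2 t3
      simp only [fn, map_mul, eval₂Hom_X', tay] at a1 ⊢
      rw [a1]
      change _ * (l * (p + 3 * t1)) = _
      linear_combination l * t1 * (t1 * t1 * j.c11 + t1 * t2 * j.c12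
        + t1 * t3 * j.c13 + t2 * t2 * j.c22 + t2 * t3 * j.c23 + t3 * t3 * j.c33) * h27
    · refine ⟨⟨l * q * j.a, l * q * j.b1, l * q * j.b2 + l * j.a, l * q * j.b3,
        l * q * j.c11, l * q * j.c12 + l * j.b1, l * q * j.c13,
        l * q * j.c22 + l * j.b2, l * q * j.c23 + l * j.b3, l * q * j.c33⟩, fun t1 t2 t3 => ?_⟩
      have a1 := hj t1 t2 t3
      simp only [fn, map_mul, eval₂Hom_X', tay] at a1 ⊢
      rw [a1]
      change _ * (l * (q + 3 * t2)) = _
      linear_combination l * t2 * (t1 * t1 * j.c11 + t1 * t2 * j.c12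
        + t1 * t3 * j.c13 + t2 * t2 * j.c22 + t2 * t3 * j.c23 + t3 * t3 * j.c33) * h27
    · refine ⟨⟨l * r * j.a, l * r * j.b1, l * r * j.b2, l * r * j.b3 + l * j.a,
        l * r * j.c11, l * r * j.c12, l * r * j.c13 + l * j.b1,
        l * r * j.c22, l * r * j.c23 + l * j.b2, l * r * j.c33 + l * j.b3⟩, fun t1 t2 t3 => ?_⟩
      have a1 := hj t1 t2 t3
      simp only [fn, map_mul, eval₂Hom_X', tay] at a1 ⊢
      rw [a1]
      change _ * (l * (r + 3 * t3)) = _
      linear_combination l * t3 * (t1 * t1 * j.c11 + t1 * t2 * j.c12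
        + t1 * t3 * j.c13 + t2 * t2 * j.c22 + t2 * t3 * j.c23 + t3 * t3 * j.c33) * h27

theorem gen27 {S : Type} [CommRing S] (h27 : (27 : S) = 0) (Φ : MvPolynomial (Fin 3) ℤ)
    (h : Rel (S := ℤ) (fn Φ)) (x y l : S) :
    9 * (1 + x ^ 2 + x ^ 4 + y ^ 2 + x ^ 2 * y ^ 2 + y ^ 4) * fn Φ (l * y) (l * x) (l * 1) = 0 := by
  obtain ⟨h1, h2, h3, h4⟩ := rel_lift (S := S) Φ h
  exact cert h27 (fun a b c => fn Φ (l * a) (l * b) (l * c))
    (fun p q r => taylor h27 _ p q r Φ) (fun a b c => by simp only [mul_neg, h1])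
    (fun a b c => h2 _ _ _) (fun a b c => h3 _ _ _)
    (fun a b c => by simp only [mul_add, mul_sub, h4]) x y

theorem mod27 (Φ : MvPolynomial (Fin 3) ℤ) (h : Rel (S := ℤ) (fn Φ)) :
    C ((27 : ℕ) : ℤ) ∣ (9 * (1 + X 0 ^ 2 + X 0 ^ 4 + X 1 ^ 2 + X 0 ^ 2 * X 1 ^ 2 + X 1 ^ 4) *
      fn Φ (X 2 * X 1) (X 2 * X 0) (X 2 * 1) : MvPolynomial (Fin 3) ℤ) := by
  have h27 : (27 : MvPolynomial (Fin 3) (ZMod 27)) = 0 := by
    have := CharP.cast_eq_zero (MvPolynomial (Fin 3) (ZMod 27)) 27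
    exact_mod_cast this
  have key := gen27 h27 Φ h (X 0) (X 1) (X 2)
  rw [C_dvd_iff_zmod]
  simp only [map_mul, map_add, map_pow, map_one, map_X, fn_nat, map_ofNat]
  exact key

theorem mod3 (Φ : MvPolynomial (Fin 3) ℤ) (h : Rel (S := ℤ) (fn Φ)) :
    (fn Φ (X 2 * X 1) (X 2 * X 0) (X 2 * 1) : MvPolynomial (Fin 3) (ZMod 3)) = 0 := by
  have d3 : C ((3 : ℕ) : ℤ) ∣ ((1 + X 0 ^ 2 + X 0 ^ 4 + X 1 ^ 2 + X 0 ^ 2 * X 1 ^ 2 + X 1 ^ 4) *
      fn Φ (X 2 * X 1) (X 2 * X 0) (X 2 * 1) : MvPolynomial (Fin 3) ℤ) := by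
    obtain ⟨w, hw⟩ := mod27 Φ h
    refine ⟨w, mul_left_cancel₀ (a := (9 : MvPolynomial (Fin 3) ℤ)) (by norm_num) ?_⟩
    rw [← mul_assoc, hw]
    simp only [Nat.cast_ofNat, eq_intCast, Int.cast_ofNat]
    ring
  rw [C_dvd_iff_zmod, map_mul, mul_eq_zero] at d3
  have h3 := d3.resolve_left fun hu => by
    have := congrArg (eval fun _ => 0) hu
    simp at this
  simpa only [map_mul, map_one, map_X, fn_nat] using h3

theorem field3 {K : Type} [Field K] [Algebra (ZMod 3) K] (Φ : MvPolynomial (Fin 3) ℤ)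
    (h : Rel (S := ℤ) (fn Φ)) (a b c : K) (hc : c ≠ 0) : fn Φ a b c = 0 := by
  have e := congrArg (eval₂Hom (algebraMap (ZMod 3) K) ![b / c, a / c, c]) (mod3 Φ h)
  simp only [fn_nat, map_mul, map_one, map_zero, eval₂Hom_X'] at e
  simpa [mul_div_cancel₀ _ hc] using e

theorem three_dvd (Φ : MvPolynomial (Fin 3) ℤ) (h : Rel (S := ℤ) (fn Φ)) : C (3 : ℤ) ∣ Φ := by
  let B := MvPolynomial (Fin 3) (ZMod 3)
  let g : B →+* FractionRing B := algebraMap B (FractionRing B)
  have inj : Function.Injective g := IsFractionRing.injective B (FractionRing B)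
  have e := field3 Φ h (g (X 0)) (g (X 1)) (g (X 2))
    fun hh => X_ne_zero (R := ZMod 3) (2 : Fin 3) (inj (hh.trans (map_zero g).symm))
  rw [← fn_nat] at e
  have e2 := inj (e.trans (map_zero g).symm)
  have e3 : fn Φ (X 0) (X 1) (X 2) = Φ := by
    have : (![X 0, X 1, X 2] : Fin 3 → MvPolynomial (Fin 3) ℤ) = X := by
      ext1 i
      fin_cases i <;> rfl
    rw [fn, this, RingHom.ext_int (Int.castRingHom _) C]
    exact eval₂_eta Φ
  have e4 := fn_nat (map (Int.castRingHom (ZMod 3))) Φ (X (0 : Fin 3)) (X 1) (X 2)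
  rw [e3, map_X, map_X, map_X, e2] at e4
  exact (C_dvd_iff_zmod 3 Φ).2 e4

theorem pow_dvd : ∀ (n : ℕ) (Φ : MvPolynomial (Fin 3) ℤ), Rel (S := ℤ) (fn Φ) →
    C ((3 : ℤ) ^ n) ∣ Φ
  | 0, Φ, _ => by simp
  | n + 1, Φ, h => by
    obtain ⟨Ψ, rfl⟩ := three_dvd Φ h
    have e : ∀ a b c : ℤ, fn (C 3 * Ψ) a b c = 3 * fn Ψ a b c := fun a b c => by simp [fn]
    obtain ⟨h1, h2, h3, h4⟩ := h
    simp only [e] at h1 h2 h3 h4
    have := pow_dvd n Ψ ⟨fun a b c => by linarith [h1 a b c], fun a b c => by linarith [h2 a b c],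
      fun a b c => by linarith [h3 a b c], fun a b c => by linarith [h4 a b c]⟩
    rw [pow_succ', map_mul]
    exact mul_dvd_mul_left _ this

theorem core_int (Φ : MvPolynomial (Fin 3) ℤ) (h : Rel (S := ℤ) (fn Φ)) : Φ = 0 := by
  ext m
  have := (C_dvd_iff_dvd_coeff _ _).1 (pow_dvd (coeff m Φ).natAbs Φ h) m
  refine Int.eq_zero_of_dvd_of_natAbs_lt_natAbs this ?_
  rw [Int.natAbs_pow]
  exact Nat.lt_pow_self (by norm_num)

theorem clear (Φ : MvPolynomial (Fin 3) ℚ) : ∃ (N : ℤ) (Ψ : MvPolynomial (Fin 3) ℤ), N ≠ 0 ∧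
    map (Int.castRingHom ℚ) Ψ = C (N : ℚ) * Φ := by
  induction Φ using MvPolynomial.induction_on with
  | C a =>
    refine ⟨a.den, C a.num, by exact_mod_cast a.den_nz, ?_⟩
    rw [map_C, ← map_mul]
    congr 1
    simp
  | add f g hf hg =>
    obtain ⟨N, Ψ, h0, h1⟩ := hf
    obtain ⟨M, Θ, h2, h3⟩ := hg
    refine ⟨N * M, C M * Ψ + C N * Θ, mul_ne_zero h0 h2, ?_⟩
    simp only [map_add, map_mul, h1, h3, map_C, Int.cast_mul]
    simp only [eq_intCast]
    ring
  | mul_X f i hf =>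
    obtain ⟨N, Ψ, h0, h1⟩ := hf
    exact ⟨N, Ψ * X i, h0, by rw [map_mul, h1, map_X, mul_assoc]⟩

theorem core (Φ : MvPolynomial (Fin 3) ℚ) (P : ℚ → ℚ → ℚ → ℚ)
    (hP : ∀ a b c, P a b c = MvPolynomial.eval ![a, b, c] Φ)
    (h1 : ∀ a b c, P (-a) b c = P a b c) (h2 : ∀ a b c, P a c b = P a b c)
    (hJ : ∀ a b c, P a b c + P b c a + P c a b = 0)
    (hG : ∀ x y z, P (x + z) y z + P (x - z) y z + P (y + z) x z + P (y - z) x z = 0) :
    Φ = 0 := by
  obtain ⟨N, Ψ, h0, h⟩ := clear Φ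
  have e : ∀ a b c : ℤ, ((fn Ψ a b c : ℤ) : ℚ) = N * P a b c := fun a b c => by
    have := fn_nat (Int.castRingHom ℚ) Ψ a b c
    have h3 := congrArg (eval ![(a : ℚ), b, c]) h
    rw [map_mul, eval_C, ← hP, eval_map] at h3
    rw [← h3]
    exact this
  have hz : Ψ = 0 := by
    refine core_int Ψ ⟨fun a b c => ?_, fun a b c => ?_, fun a b c => ?_, fun a b c => ?_⟩
    · apply Int.cast_injective (α := ℚ)
      rw [e, e, Int.cast_neg, h1]
    · apply Int.cast_injective (α := ℚ)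
      rw [e, e, h2]
    · apply Int.cast_injective (α := ℚ)
      push_cast
      simp only [e]
      linear_combination N * hJ a b c
    · apply Int.cast_injective (α := ℚ)
      push_cast
      simp only [e, Int.cast_add, Int.cast_sub]
      linear_combination N * hG a b c
  rw [hz, map_zero] at h
  refine (mul_eq_zero.1 h.symm).resolve_left ?_
  rw [C_eq_zero]
  exact_mod_cast h0

end Pool.Agent.MP_cbe134_nt.T3

end
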