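import Pool.Agent.MP_cbe134_nt.VD1
import Pool.Agent.Mg.Fcbe134.Ge8b39d

section

/- Double shuffle forms of depth two and three are determined by their totally even part. -/

namespace Pool.Agent.MP_cbe134_nt.T3

open MvPolynomial V

/-- the statement of the core lemma -/
def Core : Prop :=
  ∀ (Phi : MvPolynomial (Fin 3) ℚ) (P : ℚ → ℚ → ℚ → ℚ),
    (∀ a b c, P a b c = MvPolynomial.eval ![a, b, c] Phi) →
    (∀ a b c, P (-a) b c = P a b c) → (∀ a b c, P a c b = P a b c) →
    (∀ a b c, P a b c + P b c a + P c a b = 0) →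
    (∀ x y z, P (x + z) y z + P (x - z) y z + P (y + z) x z + P (y - z) x z = 0) → Phi = 0

/-- the step at the level of functions -/
theorem fun3 (f : ℚ → ℚ → ℚ → ℚ)
    (S : ∀ a b c, f a b c + f b a c + f b c a = 0)
    (T : ∀ a b c, f (a + b + c) (b + c) c + f (a + b + c) (a + c) c + f (a + b + c) (a + c) a = 0)
    (Par : ∀ a b c, f (-a) (-b) (-c) = f a b c)
    (H : ∀ a b c, (f a b c + f (-a) b c + f a (-b) c + f a b (-c)) -
      2 * (f 0 b c + f 0 (-b) c) - 2 * (f a 0 c + f (-a) 0 c) - 2 * (f a b 0 + f (-a) b 0) +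
      4 * (f 0 0 c + f 0 b 0 + f a 0 0) - 4 * f 0 0 0 = 0)
    (P : ℚ → ℚ → ℚ → ℚ) (hP : ∀ a b c, P a b c = f ((a + c - b) / 2) c ((a + b + c) / 2)) :
    (∀ a b c, P (-a) b c = P a b c) ∧ (∀ a b c, P a c b = P a b c) ∧
    (∀ a b c, P a b c + P b c a + P c a b = 0) ∧
    ∀ x y z, P (x + z) y z + P (x - z) y z + P (y + z) x z + P (y - z) x z = 0 := by
  have cg : ∀ {a b c a' b' c' : ℚ}, a = a' → b = b' → c = c' → f a b c = f a' b' c' := by
    rintro a b c _ _ _ rfl rfl rfl; rfl
  have R1 : ∀ a b c, f a b c = f c b a := fun a b c => by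
    have := S a b c; have := S c b a; linarith
  have R2 : ∀ X Y Z, f X Y Z = f X (X - Z) (X - Y) := fun X Y Z => by
    have h1 := T (X - Y) (Y - Z) Z
    have h2 := T Z (Y - Z) (X - Y)
    rw [show X - Y + (Y - Z) + Z = X by ring, show Y - Z + Z = Y by ring] at h1
    rw [show Z + (Y - Z) + (X - Y) = X by ring, show Y - Z + (X - Y) = X - Z by ring,
      add_comm Z] at h2
    linarith
  have fP : ∀ x y z, f x y z = P (x + z - y) (z - x) y := fun x y z => by
    rw [hP]; exact cg (by ring) rfl (by ring)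
  have P2 : ∀ a b c, P a (-b) c = P a b c := fun a b c => by
    rw [hP, hP, R1]; exact cg (by ring) rfl (by ring)
  have P4 : ∀ a b c, P a (-c) (-b) = P a b c := fun a b c => by
    rw [hP, hP, R2]; exact cg (by ring) (by ring) (by ring)
  have Ps : ∀ a b c, P a c b = P a b c := fun a b c => by
    have h := P4 a (-b) c
    rw [neg_neg, P2, P2] at h; exact h
  have P3 : ∀ a b c, P a b (-c) = P a b c := fun a b c => by rw [Ps, P2, Ps]
  have P1 : ∀ a b c, P (-a) b c = P a b c := fun a b c => by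
    rw [← P2, ← P3, hP, hP, ← Par]; exact cg (by ring) (by ring) (by ring)
  have cP : ∀ {a b c a' b' c' : ℚ}, a = a' → b = b' → c = c' → P a b c = P a' b' c' := by
    rintro a b c _ _ _ rfl rfl rfl; rfl
  have J : ∀ a b c, P a b c + P b c a + P c a b = 0 := fun A B C => by
    have h := T ((A + B - C) / 2) ((B + C - A) / 2) ((A + C - B) / 2)
    rw [fP, fP, fP] at h
    have e1 := P2 A B C
    have e2 := (P2 C B A).trans (Ps C A B)
    have e3 := P2 B C A
    rw [cP (a' := A) (b' := -B) (c' := C) (by ring) (by ring) (by ring)] at h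
    rw [add_assoc, add_comm, cP (a' := C) (b' := -B) (c' := A) (by ring) (by ring) (by ring)] at h
    rw [add_assoc, add_comm, add_assoc,
      cP (a' := B) (b' := -C) (c' := A) (by ring) (by ring) (by ring)] at h
    linarith
  refine ⟨P1, Ps, J, ?_⟩
  have gs : ∀ u v, f 0 u v = f 0 v u := fun u v => by
    rw [R2, ← Par]; exact cg (by ring) (by ring) (by ring)
  have gp : ∀ u v, f 0 (-u) (-v) = f 0 u v := fun u v => by
    rw [← Par 0 u v, neg_zero]
  have g3 : ∀ u v, f u v 0 = f 0 u v := fun u v => by rw [R1, gs]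
  have g2 : ∀ u v, f u 0 v = -2 * f 0 u v := fun u v => by
    have := S 0 u v; have := g3 u v; linarith
  have g0 : ∀ v, f 0 0 v = 0 := fun v => by have := g2 0 v; linarith
  have g0' : ∀ v, f 0 v 0 = 0 := fun v => by rw [gs, g0]
  have g0'' : ∀ v, f v 0 0 = 0 := fun v => by rw [R1, g0]
  have H' : ∀ a b c, f a b c + f (-a) b c + f a (-b) c + f a b (-c) =
      2 * (f 0 b c + f 0 (-b) c) - 4 * (f 0 a c + f 0 (-a) c) + 2 * (f 0 a b + f 0 (-a) b) :=
    fun a b c => by
      have h := H a b c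
      rw [g2 a, g2 (-a), g3 a, g3 (-a), g0, g0', g0'', g0] at h
      linarith
  have t3 : ∀ a z, f 0 a (a + z) + f 0 z (a + z) + f 0 z (-a) = 0 := fun a z => by
    have h := T (-a) (-z) (a + z)
    rw [show -a + -z + (a + z) = 0 by ring, show -z + (a + z) = a by ring,
      show -a + (a + z) = z by ring] at h
    exact h
  have Pg : ∀ u v, P (u + v) (v - u) 0 = -2 * f 0 u v := fun u v => by
    rw [← g2, fP, sub_zero]
  have Pe : ∀ u v, f u (u + v) v = 2 * (f 0 u v + f 0 (-u) v) := fun u v => by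
    have h := J 0 (u + v) (v - u)
    have h2 := Pg (-u) v
    rw [show -u + v = v - u by ring, sub_neg_eq_add, add_comm v u] at h2
    rw [Pg, Ps (v - u), h2] at h
    rw [fP, sub_self, Ps]
    linarith
  have pP : ∀ a b, f a b (a + b) = P (2 * a) b b := fun a b => by
    rw [fP]; exact cP (by ring) (by ring) rfl
  have m1 : ∀ a z, -2 * f 0 a (a + z) - 2 * f 0 a (a - z) - f a z (a + z) =
      2 * (f 0 z a + f 0 (-z) a) - 4 * (f 0 a a + f 0 (-a) a) + 2 * (f 0 a z + f 0 (-a) z) :=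
    fun a z => by
      rw [← H']
      have j := J (2 * a) z z
      have e1 : f a z a = -2 * f 0 a (a - z) := by
        rw [← Pg, fP, ← Ps, ← P2]; exact cP (by ring) (by ring) (by ring)
      have e2 : f a (-z) a = -2 * f 0 a (a + z) := by
        rw [← Pg, fP, ← Ps, ← P2]; exact cP (by ring) (by ring) (by ring)
      have e3 : f (-a) z a = P z (2 * a) z := by
        rw [fP, ← P1]; exact cP (by ring) (by ring) rfl
      have e4 : f a z (-a) = P z (2 * a) z := by
        rw [fP, ← P1, ← P2]; exact cP (by ring) (by ring) rfl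
      have e5 := Ps z (2 * a) z
      have e6 := pP a z
      linarith
  have e0 : ∀ a z, f 0 a z + f 0 (-a) z =
      (f 0 a a + f 0 (-a) a) + (f 0 z z + f 0 (-z) z) := fun a z => by
    have h1 := m1 a z
    have h2 := m1 z a
    have h3 := t3 a z
    have h4 := t3 a (-z)
    have h5 := S a z (a + z)
    have h6 := Pe z a
    have h7 := gp z (z - a)
    have h8 := gp z a
    have h9 := gs a z
    have h10 := gp (-z) a
    have h11 := gs z (-a)
    rw [add_comm z a] at h2 h6
    rw [neg_sub] at h7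
    rw [neg_neg] at h10
    rw [← sub_eq_add_neg] at h4
    linarith
  have e1 : ∀ a, f 0 a a + f 0 (-a) a = 0 := fun a => by
    have h := e0 a 0
    rw [g0', g0', neg_zero, g0] at h
    linarith
  have e2 : ∀ a z, f 0 a z + f 0 (-a) z = 0 := fun a z => by rw [e0, e1, e1, add_zero]
  intro x y z
  have h := H' ((x - y) / 2) z ((x + y) / 2)
  rw [e2, e2, e2] at h
  have a1 : f ((x - y) / 2) z ((x + y) / 2) = P (x - z) y z := by
    rw [fP]; exact cP (by ring) (by ring) rfl
  have a2 : f (-((x - y) / 2)) z ((x + y) / 2) = P (y - z) x z := by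
    rw [fP]; exact cP (by ring) (by ring) rfl
  have a3 : f ((x - y) / 2) (-z) ((x + y) / 2) = P (x + z) y z := by
    rw [fP, P3]; exact cP (by ring) (by ring) rfl
  have a4 : f ((x - y) / 2) z (-((x + y) / 2)) = P (y + z) x z := by
    rw [fP, ← P1, ← P2]; exact cP (by ring) (by ring) rfl
  linarith

theorem ev3 (f : Pn 3) (a b c : ℚ) : ev f [a, b, c] = eval ![a, b, c] f := by
  unfold ev
  congr 2
  funext i
  fin_cases i <;> rfl

theorem ev2 (f : Pn 2) (a b : ℚ) : ev f [a, b] = eval ![a, b] f := by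
  unfold ev
  congr 2
  funext i
  fin_cases i <;> rfl

theorem par {n d : ℕ} {f : Pn n} (hf : f ∈ Hd n d) (x : Fin n → ℚ) :
    eval (fun i => -x i) f = (-1) ^ d * eval x f := by
  rw [mem_homogeneousSubmodule] at hf
  rw [eval_eq', eval_eq', Finset.mul_sum]
  refine Finset.sum_congr rfl fun a ha => ?_
  have h : ∑ i, a i = d := by
    rw [← Finsupp.degree_eq_sum]
    by_contra e
    exact mem_support_iff.1 ha (hf.coeff_eq_zero e)
  simp only [neg_pow (x _)]
  rw [Finset.prod_mul_distrib, Finset.prod_pow_eq_pow_sum, h]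
  ring

theorem fac {e : ℕ} (h : ¬ (Even e ∧ 2 ≤ e)) (x : ℚ) : x ^ e + (-x) ^ e - 2 * 0 ^ e = 0 := by
  rcases Nat.even_or_odd e with he | he
  · obtain rfl : e = 0 := by
      obtain ⟨m, rfl⟩ := he
      by_contra h0
      exact h ⟨⟨m, rfl⟩, by omega⟩
    norm_num
  · rw [he.neg_pow, zero_pow he.pos.ne']; ring

theorem key3 (hcore : Core) (d : ℕ) (hd : Even d) (f : Pn 3) (hf : f ∈ DS 3 d)
    (h : ∀ a : Fin 3 →₀ ℕ, (∀ i, Even (a i) ∧ 2 ≤ a i) → coeff a f = 0) : f = 0 := by
  set F : ℚ → ℚ → ℚ → ℚ := fun a b c => eval ![a, b, c] f with hF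
  have Par : ∀ a b c, F (-a) (-b) (-c) = F a b c := fun a b c => by
    have := par hf.1 ![a, b, c]
    rw [hd.neg_one_pow, one_mul] at this
    simp only [hF]
    rw [← this]
    congr 2
    funext i
    fin_cases i <;> rfl
  have ST := fun a b c => hf.2 [a] [b, c] (by simp) (by simp) rfl
  simp only [shuf, V.psum, List.map_cons, List.map_nil, List.cons_append, List.nil_append,
    List.sum_cons, List.sum_nil, add_zero, ev3] at ST
  have H0 : ∀ a b c : ℚ, ∑ m ∈ f.support, coeff m f *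
      ((a ^ m 0 + (-a) ^ m 0 - 2 * 0 ^ m 0) * (b ^ m 1 + (-b) ^ m 1 - 2 * 0 ^ m 1) *
        (c ^ m 2 + (-c) ^ m 2 - 2 * 0 ^ m 2)) = 0 := fun a b c => by
    refine Finset.sum_eq_zero fun m _ => ?_
    by_cases e : ∀ i, Even (m i) ∧ 2 ≤ m i
    · rw [h m e, zero_mul]
    · rw [not_forall] at e
      obtain ⟨i, e⟩ := e
      fin_cases i
      · rw [fac (e := m 0) e]; ring
      · rw [fac (e := m 1) e]; ring
      · rw [fac (e := m 2) e]; ring
  have hev : ∀ a b c, F a b c = ∑ m ∈ f.support, coeff m f * (a ^ m 0 * b ^ m 1 * c ^ m 2) :=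
    fun a b c => by
      simp only [hF, eval_eq', Fin.prod_univ_three]
      rfl
  let Phi : MvPolynomial (Fin 3) ℚ :=
    aeval ![C (1 / 2 : ℚ) * (X 0 + X 2 - X 1), X 2, C (1 / 2 : ℚ) * (X 0 + X 1 + X 2)] f
  have hPhi : ∀ a b c, F ((a + c - b) / 2) c ((a + b + c) / 2) = eval ![a, b, c] Phi :=
    fun a b c => by
      simp only [hF, Phi]
      rw [← coe_aeval_eq_eval, ← coe_aeval_eq_eval]
      change aeval _ f = aeval _ (aeval _ f)
      rw [← AlgHom.comp_apply, comp_aeval]
      congr 2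
      funext i
      fin_cases i <;> simp <;> ring
  obtain ⟨h1, h2, h3, h4⟩ := fun3 F (fun a b c => by have := (ST a b c).1; linarith)
    (fun a b c => by
      have := (ST a b c).2
      rw [show b + (a + c) = a + b + c by ring, show b + (c + a) = a + b + c by ring,
        ← add_assoc a b c, add_comm c a] at this
      linarith) Par
    (fun a b c => by
      have e : 2 * ((F a b c + F (-a) b c + F a (-b) c + F a b (-c)) -
          2 * (F 0 b c + F 0 (-b) c) - 2 * (F a 0 c + F (-a) 0 c) - 2 * (F a b 0 + F (-a) b 0) +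
          4 * (F 0 0 c + F 0 b 0 + F a 0 0) - 4 * F 0 0 0) =
          F a b c + F (-a) b c + F a (-b) c + F a b (-c) + F (-a) (-b) (-c) + F a (-b) (-c) +
          F (-a) b (-c) + F (-a) (-b) c -
          2 * (F 0 b c + F 0 (-b) c + F 0 (-b) (-c) + F 0 b (-c)) -
          2 * (F a 0 c + F (-a) 0 c + F (-a) 0 (-c) + F a 0 (-c)) -
          2 * (F a b 0 + F (-a) b 0 + F (-a) (-b) 0 + F a (-b) 0) +
          4 * (F 0 0 c + F 0 b 0 + F a 0 0 + F 0 0 (-c) + F 0 (-b) 0 + F (-a) 0 0) -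
          8 * F 0 0 0 := by
        have p1 := Par a b c
        have p2 := Par (-a) b c
        have p3 := Par a (-b) c
        have p4 := Par a b (-c)
        have p5 := Par 0 b c
        have p6 := Par 0 (-b) c
        have p7 := Par a 0 c
        have p8 := Par (-a) 0 c
        have p9 := Par a b 0
        have p10 := Par (-a) b 0
        have p11 := Par 0 0 c
        have p12 := Par 0 b 0
        have p13 := Par a 0 0
        simp only [neg_neg, neg_zero] at p2 p3 p4 p5 p6 p7 p8 p9 p10 p11 p12 p13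
        linarith
      have e2 := H0 a b c
      have e3 : 2 * ((F a b c + F (-a) b c + F a (-b) c + F a b (-c)) -
          2 * (F 0 b c + F 0 (-b) c) - 2 * (F a 0 c + F (-a) 0 c) - 2 * (F a b 0 + F (-a) b 0) +
          4 * (F 0 0 c + F 0 b 0 + F a 0 0) - 4 * F 0 0 0) = 0 := by
        rw [e]
        refine Eq.trans ?_ e2
        simp only [hev, Finset.mul_sum, ← Finset.sum_add_distrib, ← Finset.sum_sub_distrib]
        exact Finset.sum_congr rfl fun m _ => by ring
      linarith)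
    (fun a b c => eval ![a, b, c] Phi) (fun a b c => (hPhi a b c).symm)
  have h5 := hcore Phi _ (fun _ _ _ => rfl) h1 h2 h3 h4
  refine MvPolynomial.funext fun x => ?_
  have h6 := hPhi (x 0 + x 2 - x 1) (x 2 - x 0) (x 1)
  rw [h5, map_zero, show (x 0 + x 2 - x 1 + x 1 - (x 2 - x 0)) / 2 = x 0 by ring,
    show (x 0 + x 2 - x 1 + (x 2 - x 0) + x 1) / 2 = x 2 by ring] at h6
  rw [map_zero, ← h6]
  simp only [hF]
  congr 2
  funext i
  fin_cases i <;> rfl

theorem st2 {d : ℕ} {f : Pn 2} (hf : f ∈ DS 2 d) :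
    (∀ a b : ℚ, eval ![a, b] f = -eval ![b, a] f) ∧
      ∀ a b : ℚ, eval ![a, b] f = -eval ![a, a - b] f := by
  have ST := fun a b => hf.2 [a] [b] (by simp) (by simp) rfl
  simp only [shuf, V.psum, List.map_cons, List.map_nil, List.cons_append, List.nil_append,
    List.sum_cons, List.sum_nil, add_zero, ev2] at ST
  refine ⟨fun a b => by have := (ST a b).1; linarith, fun a b => ?_⟩
  have := (ST (a - b) b).2
  rw [sub_add_cancel, add_sub_cancel] at this
  linarith

theorem par2 {d : ℕ} {f : Pn 2} (hf : f ∈ DS 2 d) (a b : ℚ) :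
    eval ![-a, -b] f = (-1) ^ d * eval ![a, b] f := by
  rw [← par hf.1 ![a, b]]
  congr 2
  funext i
  fin_cases i <;> rfl

theorem zero2 {f : Pn 2} (h : ∀ a b : ℚ, eval ![a, b] f = 0) : f = 0 := by
  refine MvPolynomial.funext fun x => ?_
  rw [map_zero, ← h (x 0) (x 1)]
  congr 2
  funext i
  fin_cases i <;> rfl

theorem odd2 (d : ℕ) (hd : Odd d) (f : Pn 2) (hf : f ∈ DS 2 d) : f = 0 := by
  obtain ⟨A, B⟩ := st2 hf
  refine zero2 fun a b => ?_
  have p := par2 hf a b
  rw [hd.neg_one_pow] at p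
  have h1 := B a b
  have h2 := A a (a - b)
  have h3 := B (a - b) a
  have h4 := A (a - b) (-b)
  have h5 := B (-b) (a - b)
  have h6 := A (-b) (-a)
  rw [show a - b - a = -b by ring] at h3
  rw [show -b - (a - b) = -a by ring] at h5
  linarith

theorem key2 (d : ℕ) (hd : Even d) (f : Pn 2) (hf : f ∈ DS 2 d)
    (h : ∀ a : Fin 2 →₀ ℕ, (∀ i, Even (a i) ∧ 2 ≤ a i) → coeff a f = 0) : f = 0 := by
  obtain ⟨A, B⟩ := st2 hf
  have Par := par2 hf
  simp only [hd.neg_one_pow, one_mul] at Par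
  have z1 : ∀ b : ℚ, eval ![0, b] f = 0 := fun b => by
    have h1 := B 0 b
    have h2 := Par 0 b
    rw [zero_sub] at h1
    rw [neg_zero] at h2
    linarith
  have z2 : ∀ b : ℚ, eval ![b, 0] f = 0 := fun b => by rw [A, z1, neg_zero]
  have hev : ∀ a b : ℚ, eval ![a, b] f = ∑ m ∈ f.support, coeff m f * (a ^ m 0 * b ^ m 1) :=
    fun a b => by
      simp only [eval_eq', Fin.prod_univ_two]
      rfl
  have od : ∀ a b : ℚ, eval ![a, -b] f = -eval ![a, b] f := fun a b => by
    have H0 : ∑ m ∈ f.support, coeff m f *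
        ((a ^ m 0 + (-a) ^ m 0 - 2 * 0 ^ m 0) * (b ^ m 1 + (-b) ^ m 1 - 2 * 0 ^ m 1)) = 0 := by
      refine Finset.sum_eq_zero fun m _ => ?_
      by_cases e : ∀ i, Even (m i) ∧ 2 ≤ m i
      · rw [h m e, zero_mul]
      · rw [not_forall] at e
        obtain ⟨i, e⟩ := e
        fin_cases i
        · rw [fac (e := m 0) e]; ring
        · rw [fac (e := m 1) e]; ring
    have e : eval ![a, b] f + eval ![a, -b] f + eval ![-a, b] f + eval ![-a, -b] f -
        2 * (eval ![0, b] f + eval ![0, -b] f + eval ![a, 0] f + eval ![-a, 0] f) +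
        4 * eval ![0, 0] f = 0 := by
      refine Eq.trans ?_ H0
      simp only [hev, Finset.mul_sum, ← Finset.sum_add_distrib, ← Finset.sum_sub_distrib]
      exact Finset.sum_congr rfl fun m _ => by ring
    have p1 := Par a b
    have p2 := Par a (-b)
    rw [neg_neg] at p2
    rw [z1, z1, z1, z2, z2] at e
    linarith
  refine zero2 fun a b => ?_
  by_cases ha : a = 0
  · rw [ha, z1]
  have zn : ∀ n : ℕ, eval ![a, n * a] f = 0 := fun n => by
    induction n with
    | zero => simpa using z2 a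
    | succ n ih =>
      rw [B, show a - ((n + 1 : ℕ) : ℚ) * a = -(n * a) by push_cast; ring, od, ih]
      simp
  let q : Polynomial ℚ := aeval ![Polynomial.C a, Polynomial.X] f
  have hq : ∀ y : ℚ, q.eval y = eval ![a, y] f := fun y => by
    simp only [q]
    rw [← Polynomial.coe_aeval_eq_eval, ← coe_aeval_eq_eval]
    change Polynomial.aeval y (aeval _ f) = aeval _ f
    rw [← AlgHom.comp_apply, comp_aeval]
    congr 2
    funext i
    fin_cases i <;> simp
  have : q = 0 := by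
    refine Polynomial.eq_zero_of_infinite_isRoot q (Set.infinite_of_injective_forall_mem
      (f := fun n : ℕ => (n : ℚ) * a) (fun m n e => ?_) fun n => ?_)
    · exact_mod_cast mul_right_cancel₀ ha e
    · exact (hq _).trans (zn n)
  rw [← hq, this, Polynomial.eval_zero]

end Pool.Agent.MP_cbe134_nt.T3

end

section

/- Totally odd triple zeta values span depth three modulo depth two in odd weight. -/

namespace Pool.Agent.MP_cbe134_nt.T3

open MvPolynomial V

/-- the span of the totally odd values of depth `r` and weight `k` -/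
noncomputable def Tot (r k : ℕ) : Submodule ℚ ℝ :=
  Submodule.span ℚ {x | ∃ w : List ℕ, (∀ a ∈ w, Odd a ∧ 3 ≤ a) ∧ w.sum = k ∧ w.length = r ∧
    x = mzv w}

theorem form_mem {r d : ℕ} {reg : List ℕ → ℝ}
    (hsh : ∀ (u v : List ℚ) (d : ℕ), u ≠ [] → v ≠ [] →
      ((shuf u v).map fun σ => gen σ reg d).sum ∈
        Dec (u.length + v.length) (d + (u.length + v.length)) ∧
      ((shuf u v).map fun σ => gen (V.psum σ) reg d).sum ∈
        Dec (u.length + v.length) (d + (u.length + v.length)))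
    (ψ : Module.Dual ℚ ℝ) (hD : ∀ x ∈ Dec r (d + r), ψ x = 0) :
    z6_form r d reg ψ ∈ DS r d := by
  refine ⟨z6_form_mem r d reg _, fun u v hu hv huv => ?_⟩
  obtain ⟨h1, h2⟩ := hsh u v d hu hv
  rw [huv] at h1 h2
  have hl : ∀ w ∈ shuf u v, w.length = r := fun w hw => by
    rw [(mem_shuf hw).length_eq, List.length_append, huv]
  constructor
  · have := hD _ h1
    rw [map_list_sum, List.map_map] at this
    rw [← this]
    congr 1
    refine List.map_congr_left fun w hw => ?_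
    exact z6_ev r d reg _ w (hl w hw)
  · have := hD _ h2
    rw [map_list_sum, List.map_map] at this
    rw [← this]
    congr 1
    refine List.map_congr_left fun w hw => ?_
    exact z6_ev r d reg _ _ ((psum_length w).trans (hl w hw))

/-- the duality argument -/
theorem le_of_key (r d : ℕ) (hr : 2 ≤ r) (W : Submodule ℚ ℝ) (hD : Dec r (d + r) ≤ W)
    (p : (Fin r →₀ ℕ) → Prop)
    (hp : ∀ a, p a → ∑ i, a i = d → Adm (List.ofFn fun i => a i + 1) ∧
      mzv (List.ofFn fun i => a i + 1) ∈ W)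
    (key : ∀ f ∈ DS r d, (∀ a, p a → coeff a f = 0) → f = 0) : Fil r (d + r) ≤ W := by
  classical
  obtain ⟨reg, hreg, -, hsh⟩ := exists_reg
  intro x hx
  rw [← Subspace.forall_mem_dualAnnihilator_apply_eq_zero_iff]
  intro ψ hψ
  rw [Submodule.mem_dualAnnihilator] at hψ
  have h1 : ∀ y ∈ Dec r (d + r), ψ y = 0 := fun y hy => hψ y (hD hy)
  refine z6_kill r d hr reg hreg ψ (key _ (form_mem hsh ψ h1) fun a ha => ?_) h1 x hx
  rw [z6_form_apply, coeff_sum]
  refine Finset.sum_eq_zero fun b hb => ?_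
  rw [coeff_monomial]
  split_ifs with e
  · subst e
    obtain ⟨h2, h3⟩ := hp _ ha (Finset.Nat.mem_antidiagonalTuple.1 hb)
    exact (congrArg ψ (hreg _ h2)).trans (hψ _ h3)
  · rfl

theorem tot_of (r d : ℕ) (a : Fin r →₀ ℕ) (ha : ∀ i, Even (a i) ∧ 2 ≤ a i)
    (hs : ∑ i, a i = d) :
    Adm (List.ofFn fun i => a i + 1) ∧ mzv (List.ofFn fun i => a i + 1) ∈ Tot r (d + r) := by
  have h : ∀ c ∈ List.ofFn fun i => a i + 1, Odd c ∧ 3 ≤ c := by
    intro c hc
    obtain ⟨i, rfl⟩ := List.mem_ofFn.1 hc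
    exact ⟨(ha i).1.add_one, by have := (ha i).2; omega⟩
  refine ⟨⟨fun c hc => by have := (h c hc).2; omega,
    fun c hc => by have := (h c (List.mem_of_mem_head? hc)).2; omega⟩,
    Submodule.subset_span ⟨_, h, ?_, List.length_ofFn, rfl⟩⟩
  rw [List.sum_ofFn, Finset.sum_add_distrib, hs]
  simp

theorem Fil_one_le (i : ℕ) : Fil 1 i ≤
    if i = 0 then 1 else if i = 1 then ⊥ else Submodule.span ℚ {mzv [i]} := by
  rw [Fil, Submodule.span_le]
  rintro _ ⟨w, hw, hs, hl, rfl⟩
  match w, hw, hs, hl with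
  | [], _, hs, _ =>
    rw [← hs, mzv_nil]
    exact Submodule.mem_one.2 ⟨1, by simp⟩
  | [a], hw, hs, _ =>
    have h2 : 2 ≤ a := hw.2 a (by simp)
    obtain rfl : a = i := by simpa using hs
    rw [if_neg (by omega), if_neg (by omega)]
    exact Submodule.subset_span rfl

theorem one_mul_le {i : ℕ} {A W : Submodule ℚ ℝ} (h0 : i = 0 → A ≤ W)
    (h2 : 2 ≤ i → ∀ x ∈ A, mzv [i] * x ∈ W) : Fil 1 i * A ≤ W := by
  refine (mul_le_mul_left (Fil_one_le i) A).trans ?_
  split_ifs with e0 e1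
  · rw [one_mul]; exact h0 e0
  · rw [Submodule.bot_mul]; exact bot_le
  · rw [Submodule.mul_le]
    intro m hm x hx
    obtain ⟨c, rfl⟩ := Submodule.mem_span_singleton.1 hm
    rw [smul_mul_assoc]
    exact W.smul_mem c (h2 (by omega) x hx)

theorem even_pi {i : ℕ} (he : Even i) (h2 : 2 ≤ i) : ∃ q : ℚ, mzv [i] = q • Real.pi ^ i := by
  obtain ⟨j, rfl⟩ := he
  obtain ⟨q, hq⟩ := pi_pow_eq (j := j) (by omega)
  rw [two_mul] at hq
  have : q ≠ 0 := by
    rintro rfl
    rw [zero_smul] at hq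
    exact pow_ne_zero _ Real.pi_ne_zero hq
  exact ⟨q⁻¹, by rw [hq, smul_smul, inv_mul_cancel₀ this, one_smul]⟩

theorem even_mul {i j : ℕ} (hi : Even i) (hj : Even j) : Fil 1 i * Fil 1 j ≤ Fil 1 (i + j) := by
  refine one_mul_le (fun e => by rw [e, zero_add]) fun h2 x hx => ?_
  rw [mul_comm]
  refine one_mul_le (A := Fil 1 i) (W := Fil 1 (i + j)) (fun e => by rw [e, add_zero])
    (fun h3 y hy => ?_) (Submodule.mul_mem_mul hx (mzv_mem_Fil (adm_single h2) (by simp) le_rfl))
  have := Fil_one_le i hy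
  rw [if_neg (by omega), if_neg (by omega)] at this
  obtain ⟨c, rfl⟩ := Submodule.mem_span_singleton.1 this
  obtain ⟨q, hq⟩ := even_pi hi h2
  obtain ⟨q', hq'⟩ := even_pi hj h3
  obtain ⟨m, hm⟩ := hi.add hj
  obtain ⟨s, hs⟩ := pi_pow_eq (j := m) (by omega)
  rw [two_mul, ← hm] at hs
  rw [hq, hq', mul_smul_comm, smul_mul_smul_comm, ← pow_add, add_comm j, hs]
  exact Submodule.smul_mem _ _ (Submodule.smul_mem _ _ (Submodule.smul_mem _ _
    (mzv_mem_Fil (adm_single (by omega)) (by simp) le_rfl)))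

theorem dec_le {r k : ℕ} {W : Submodule ℚ ℝ} (h0 : Fil r k ≤ W)
    (h : ∀ p q i j, 1 ≤ p → 1 ≤ q → p + q = r + 1 → i + j = k → Fil p i * Fil q j ≤ W) :
    Dec (r + 1) k ≤ W :=
  sup_le h0 (iSup_le fun p => iSup_le fun q => iSup_le fun i => iSup_le fun j =>
    iSup_le fun e => h p q i j e.1 e.2.1 e.2.2.1 e.2.2.2)

theorem adm_tot {w : List ℕ} (h : ∀ a ∈ w, Odd a ∧ 3 ≤ a) : Adm w :=
  ⟨fun c hc => by have := (h c hc).2; omega,
    fun c hc => by have := (h c (List.mem_of_mem_head? hc)).2; omega⟩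

theorem odd_mul {i r j : ℕ} (hi : Odd i) (h2 : 2 ≤ i) {x : ℝ} (hx : x ∈ Tot r j) :
    mzv [i] * x ∈ Fil r (i + j) ⊔ Tot (r + 1) (i + j) := by
  induction hx using Submodule.span_induction with
  | mem x hx =>
    obtain ⟨w, hw, rfl, rfl, rfl⟩ := hx
    rw [mzv_stuffle h2 (adm_tot hw)]
    refine add_mem (Submodule.mem_sup_right (z5_mem _ _ _ fun u hu => ?_))
      (Submodule.mem_sup_left (z5_mem _ _ _ fun u hu => ?_))
    · obtain ⟨a1, a2, a3, -⟩ := mem_ins hu
      refine Submodule.subset_span ⟨u, fun c hc => ?_, a1, a2, rfl⟩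
      rcases a3 c hc with rfl | h
      · exact ⟨hi, by obtain ⟨m, rfl⟩ := hi; omega⟩
      · exact hw c h
    · exact mzv_mem_Fil (adm_mer h2 (adm_tot hw) hu) (mem_mer hu).1 (mem_mer hu).2.1.le
  | zero => simp
  | add x y _ _ hx hy => rw [mul_add]; exact add_mem hx hy
  | smul c x _ hx => rw [mul_smul_comm]; exact Submodule.smul_mem _ c hx

theorem two_even {j : ℕ} (hj : Even j) : Fil 2 j ≤ Fil 1 j ⊔ Tot 2 j := by
  rcases Nat.lt_or_ge j 2 with h | h
  · exact (Fil_le_prev (r := 2) (by omega) h.le).trans le_sup_left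
  obtain ⟨d, rfl⟩ : ∃ d, j = d + 2 := ⟨j - 2, by omega⟩
  have hd : Even d := by simpa [Nat.even_add] using hj
  refine le_of_key 2 d le_rfl _ (dec_le le_sup_left fun p q i i' hp hq hpq e => ?_)
    (fun a => ∀ i, Even (a i) ∧ 2 ≤ a i) (fun a ha hs => (tot_of 2 d a ha hs).imp id
      Submodule.mem_sup_right) (fun f hf => key2 d hd f hf)
  obtain rfl : p = 1 := by omega
  obtain rfl : q = 1 := by omega
  rw [← e] at hj ⊢
  rcases Nat.even_or_odd i with hi | hi
  · exact (even_mul hi ((Nat.even_add.1 hj).1 hi)).trans le_sup_left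
  have hi' : Odd i' := by
    rw [← Nat.not_even_iff_odd] at hi ⊢
    exact fun h => hi ((Nat.even_add.1 hj).2 h)
  refine one_mul_le (fun e => absurd (e ▸ hi) (by decide)) fun h2 x hx => odd_mul hi h2 ?_
  have := Fil_one_le i' hx
  rw [if_neg hi'.pos.ne'] at this
  split_ifs at this with e1
  · rw [(Submodule.mem_bot ℚ).1 this]; exact zero_mem _
  · refine Submodule.span_mono ?_ this
    rintro _ rfl
    refine ⟨[i'], fun c hc => ?_, by simp, rfl, rfl⟩
    obtain rfl : c = i' := by simpa using hc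
    exact ⟨hi', by obtain ⟨m, rfl⟩ := hi'; omega⟩

theorem two_odd {j : ℕ} (hj : Odd j) : Fil 2 j ≤ Dec 2 j := by
  rcases Nat.lt_or_ge j 2 with h | h
  · exact (Fil_le_prev (r := 2) (by omega) h.le).trans le_sup_left
  obtain ⟨d, rfl⟩ : ∃ d, j = d + 2 := ⟨j - 2, by omega⟩
  have hd : Odd d := by obtain ⟨m, hm⟩ := hj; exact ⟨m - 1, by omega⟩
  exact le_of_key 2 d le_rfl _ le_rfl (fun _ => False) (fun _ h => h.elim)
    fun f hf _ => odd2 d hd f hf

theorem one_two {i j : ℕ} (hk : Odd (i + j)) :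
    Fil 1 i * Fil 2 j ≤ Fil 2 (i + j) ⊔ Tot 3 (i + j) := by
  rcases Nat.even_or_odd i with hi | hi
  · have hj : Odd j := (Nat.odd_add'.1 hk).2 hi
    refine le_trans ?_ le_sup_left
    refine (mul_le_mul_right ((two_odd hj).trans (dec_le (W := Fil 1 j ⊔
      ⨆ (p : ℕ) (q : ℕ) (_ : Even p ∧ p + q = j), Fil 1 p * Fil 1 q) le_sup_left
      fun p q a b hp hq hpq e => ?_)) _).trans ?_
    · obtain rfl : p = 1 := by omega
      obtain rfl : q = 1 := by omega
      refine le_trans ?_ le_sup_right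
      rcases Nat.even_or_odd a with ha | ha
      · exact le_iSup_of_le a (le_iSup_of_le b (le_iSup_of_le ⟨ha, e⟩ le_rfl))
      · have hb : Even b := (Nat.odd_add.1 (e ▸ hj)).1 ha
        rw [mul_comm]
        exact le_iSup_of_le b (le_iSup_of_le a (le_iSup_of_le ⟨hb, by omega⟩ le_rfl))
    · rw [Submodule.mul_sup]
      refine sup_le (Fil_mul 1 i 1 j) ?_
      simp only [Submodule.mul_iSup]
      refine iSup_le fun p => iSup_le fun q => iSup_le fun e => ?_
      rw [← mul_assoc, ← e.2, ← add_assoc]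
      exact (mul_le_mul_left (even_mul hi e.1) _).trans (Fil_mul 1 _ 1 q)
  · have hj : Even j := (Nat.odd_add.1 hk).1 hi
    refine (mul_le_mul_right (two_even hj) _).trans ?_
    rw [Submodule.mul_sup]
    exact sup_le ((Fil_mul 1 i 1 j).trans le_sup_left)
      (one_mul_le (fun e => absurd (e ▸ hi) (by decide)) fun h2 x hx => odd_mul hi h2 hx)

theorem three_odd (hcore : Core) {k : ℕ} (hk : Odd k) : Fil 3 k ≤ Fil 2 k ⊔ Tot 3 k := by
  rcases Nat.lt_or_ge k 3 with h | h
  · exact (Fil_le_prev (r := 3) (by omega) h.le).trans le_sup_left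
  obtain ⟨d, rfl⟩ : ∃ d, k = d + 3 := ⟨k - 3, by omega⟩
  have hd : Even d := by obtain ⟨m, hm⟩ := hk; exact ⟨m - 1, by omega⟩
  refine le_of_key 3 d (by omega) _ (dec_le le_sup_left fun p q i j hp hq hpq e => ?_)
    (fun a => ∀ i, Even (a i) ∧ 2 ≤ a i) (fun a ha hs => (tot_of 3 d a ha hs).imp id
      Submodule.mem_sup_right) (fun f hf => key3 hcore d hd f hf)
  rw [← e] at hk ⊢
  obtain ⟨rfl, rfl⟩ | ⟨rfl, rfl⟩ : (p = 1 ∧ q = 2) ∨ (p = 2 ∧ q = 1) := by omega
  · exact one_two hk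
  · rw [mul_comm, add_comm i]
    exact one_two (add_comm i j ▸ hk)

theorem main (hcore : Core) (k : ℕ) (hk : Odd k) : Fil 3 k = Fil 2 k ⊔ Submodule.span ℚ
    {x | ∃ a b c : ℕ, Odd a ∧ Odd b ∧ Odd c ∧ 3 ≤ a ∧ 3 ≤ b ∧ 3 ≤ c ∧ a + b + c = k ∧
      x = mzv [a, b, c]} := by
  refine le_antisymm ((three_odd hcore hk).trans (sup_le_sup_left (Submodule.span_mono ?_) _))
    (sup_le (Fil_mono (by omega) k) (Submodule.span_le.2 ?_))
  · rintro _ ⟨w, hw, hs, hl, rfl⟩
    match w, hw, hs, hl with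
    | [a, b, c], hw, hs, _ =>
      have ha := hw a (by simp)
      have hb := hw b (by simp)
      have hc := hw c (by simp)
      exact ⟨a, b, c, ha.1, hb.1, hc.1, ha.2, hb.2, hc.2, by simpa [add_assoc] using hs, rfl⟩
  · rintro _ ⟨a, b, c, -, -, -, ha, hb, hc, hs, rfl⟩
    refine mzv_mem_Fil ⟨?_, ?_⟩ (by simpa [add_assoc] using hs) le_rfl
    · simp; omega
    · simp; omega

end Pool.Agent.MP_cbe134_nt.T3

end
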